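import Pool.Agent.MP_db5b97_nt.H85.Spec2

/-! Index computations for a cyclic extension. -/

namespace Pool.Agent.MP_db5b97_nt.H7

open AddSubgroup Pool.Agent.MP_db5b97_nt.H85

section
variable {A B : Type} [AddCommGroup A] [AddCommGroup B]

theorem la_congr {H H' K : AddSubgroup A} (h : ∀ x ∈ K, x ∈ H ↔ x ∈ H') :
    H.relIndex K = H'.relIndex K := by
  unfold relIndex
  congr 1
  ext x
  simpa only [mem_addSubgroupOf] using h x x.2

theorem la_map (φ : A →+ B) {H K : AddSubgroup B} {H' V : AddSubgroup A} (hK : V.map φ = K)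
    (h : ∀ x ∈ V, φ x ∈ H ↔ x ∈ H') : H.relIndex K = H'.relIndex V := by
  rw [← hK, ← relIndex_comap]
  exact la_congr h

theorem la_mic (φ : A →+ B) (H : AddSubgroup A) (K : AddSubgroup B) :
    (H ⊓ K.comap φ).map φ = H.map φ ⊓ K := by
  ext y
  constructor
  · rintro ⟨x, ⟨h1, h2⟩, rfl⟩
    exact ⟨⟨x, h1, rfl⟩, h2⟩
  · rintro ⟨⟨x, h1, rfl⟩, h2⟩
    exact ⟨x, ⟨h1, h2⟩, rfl⟩

theorem la_split (M : AddSubgroup A) {H K : AddSubgroup A} (h : H ≤ M) :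
    H.relIndex K = H.relIndex (M ⊓ K) * M.relIndex K := by
  rw [relIndex_inf_mul_relIndex, inf_of_le_left h]

theorem la_sup {H K K' : AddSubgroup A} (h1 : K ≤ K' ⊔ H) (h2 : K' ≤ K ⊔ H) :
    H.relIndex K = H.relIndex K' := by
  rw [← relIndex_sup_right K, ← relIndex_sup_right K',
    le_antisymm (sup_le h1 le_sup_right) (sup_le h2 le_sup_right)]

theorem la_index (φ : A →+ B) (P : AddSubgroup A) :
    P.index = P.relIndex φ.ker * (P.map φ).relIndex φ.range := by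
  rw [← index_comap, comap_map_eq, ← relIndex_sup_left φ.ker P, relIndex_mul_index le_sup_left]

theorem la_fin {f g : A →+ A} {U K : AddSubgroup A} (hfg : ∀ x, f (g x) = 0)
    (hU : ∀ x ∈ U, f x ∈ U) (hK : ∀ x ∈ K, g x ∈ K) (h : U ≤ K) :
    U.relIndex K = U.relIndex (K.map g) * (K.map g ⊔ U).relIndex (U.comap f ⊓ K) *
      U.relIndex (K.map f) := by
  have h1 : K.map g ⊔ U ≤ U.comap f ⊓ K := by
    refine sup_le ?_ fun x hx => ⟨hU x hx, h hx⟩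
    rintro _ ⟨x, hx, rfl⟩
    exact ⟨by simp [hfg], hK x hx⟩
  rw [la_split (U.comap f) (K := K) hU, relIndex_comap,
    la_split (K.map g ⊔ U) (K := U.comap f ⊓ K) le_sup_right, inf_of_le_left h1,
    relIndex_sup_right]

theorem la_herb {f g : A →+ A} {U K : AddSubgroup A} (hfg : ∀ x, f (g x) = 0)
    (hgf : ∀ x, g (f x) = 0) (hUf : ∀ x ∈ U, f x ∈ U) (hUg : ∀ x ∈ U, g x ∈ U)
    (hKf : ∀ x ∈ K, f x ∈ K) (hKg : ∀ x ∈ K, g x ∈ K) (h : U ≤ K) (h0 : U.relIndex K ≠ 0) :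
    (K.map g ⊔ U).relIndex (U.comap f ⊓ K) = (K.map f ⊔ U).relIndex (U.comap g ⊓ K) := by
  have h1 := la_fin hfg hUf hKg h
  have h2 := la_fin hgf hUg hKf h
  have h3 : U.relIndex (K.map g) * U.relIndex (K.map f) ≠ 0 := fun e => h0 (by
    rw [h1, mul_right_comm, e, zero_mul])
  refine mul_left_cancel₀ h3 ?_
  rw [mul_right_comm, ← h1, h2]
  ring

end

variable {A I Z : Type} [AddCommGroup A] [AddCommGroup I] [AddCommGroup Z] {f g : A →+ A}
  {fI gI : I →+ I} {fZ gZ : Z →+ Z} {a : A →+ I} {b : A →+ Z} {U : AddSubgroup A}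

theorem la_cone (hfg : ∀ x, f (g x) = 0) (hgf : ∀ x, g (f x) = 0) (ifg : ∀ x, fI (gI x) = 0)
    (igf : ∀ x, gI (fI x) = 0) (af : ∀ x, a (f x) = fI (a x)) (ag : ∀ x, a (g x) = gI (a x))
    (hUf : ∀ x ∈ U, f x ∈ U) (hUg : ∀ x ∈ U, g x ∈ U) (h0 : (U.map a).index ≠ 0)
    (hI : gI.ker ≤ fI.range) (hU : U ⊓ g.ker ≤ U.map f) :
    (gI.range ⊔ (U ⊓ f.ker).map a).relIndex fI.ker * hs (U ⊓ a.ker) f g =
      (U.map g).relIndex (U ⊓ f.ker ⊓ gI.range.comap a) * hs (U ⊓ a.ker) g f := by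
  have e1 : hs (U ⊓ a.ker) g f = ((U ⊓ f.ker).map a).relIndex (U.map a ⊓ fI.ker) := by
    rw [hs, la_map f (V := U ⊓ fI.ker.comap a) (H' := ((U ⊓ f.ker).map a).comap a),
      relIndex_comap, la_mic]
    · ext y
      constructor
      · rintro ⟨x, ⟨h1, h2⟩, rfl⟩
        exact ⟨⟨hUf x h1, (af x).trans h2⟩, hgf x⟩
      · rintro ⟨⟨h1, h2⟩, h3⟩
        obtain ⟨x, hx, rfl⟩ := hU ⟨h1, h3⟩
        exact ⟨x, ⟨hx, (af x).symm.trans h2⟩, rfl⟩
    · rintro x ⟨h1, -⟩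
      constructor
      · rintro ⟨e, ⟨e1, e2⟩, e3⟩
        exact ⟨x - e, ⟨U.sub_mem h1 e1, by simp [e3]⟩, by simp [show a e = 0 from e2]⟩
      · rintro ⟨w, ⟨w1, w2⟩, w3⟩
        exact ⟨x - w, ⟨U.sub_mem h1 w1, by simp [w3]⟩, by simp [show f w = 0 from w2]⟩
  have e2 : hs (U ⊓ a.ker) f g = ((U.map a).map fI).relIndex (U.map a ⊓ gI.ker) *
      (U.map g).relIndex (U ⊓ a.ker ⊓ f.ker) := by
    rw [hs, la_split (U.map g) (map_mono inf_le_left),
      la_map g (V := U ⊓ gI.ker.comap a) (H' := ((U.map a).map fI).comap a), relIndex_comap,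
      la_mic]
    · ext y
      constructor
      · rintro ⟨x, ⟨h1, h2⟩, rfl⟩
        exact ⟨⟨x, h1, rfl⟩, ⟨hUg x h1, (ag x).trans h2⟩, hfg x⟩
      · rintro ⟨⟨x, hx, rfl⟩, ⟨-, h2⟩, -⟩
        exact ⟨x, ⟨hx, (ag x).symm.trans h2⟩, rfl⟩
    · rintro x ⟨h1, -⟩
      constructor
      · rintro ⟨e, ⟨e1, e2⟩, e3⟩
        obtain ⟨u, hu, h2⟩ := hU (show x - e ∈ U ⊓ g.ker from ⟨U.sub_mem h1 e1, by simp [e3]⟩)
        exact ⟨a u, ⟨u, hu, rfl⟩, by simp [← af, h2, show a e = 0 from e2]⟩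
      · rintro ⟨_, ⟨u, hu, rfl⟩, h2⟩
        exact ⟨x - f u, ⟨U.sub_mem h1 (hUf u hu), by simp [af, h2]⟩, by simp [hgf]⟩
  have e3 : (U.map g).relIndex (U ⊓ f.ker ⊓ gI.range.comap a) =
      (U.map g).relIndex (U ⊓ a.ker ⊓ f.ker) *
        ((U.map a).map gI).relIndex ((U ⊓ f.ker).map a ⊓ gI.range) := by
    rw [la_split (((U.map a).map gI).comap a), relIndex_comap, la_mic,
      la_sup (K' := U ⊓ a.ker ⊓ f.ker)]
    · rintro x ⟨⟨_, ⟨u, hu, rfl⟩, h1⟩, ⟨h2, h3⟩, -⟩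
      refine mem_sup.2 ⟨x - g u, ⟨⟨U.sub_mem h2 (hUg u hu), by simp [ag, h1]⟩, ?_⟩, g u,
        ⟨u, hu, rfl⟩, sub_add_cancel _ _⟩
      simp [hfg, show f x = 0 from h3]
    · rintro x ⟨⟨h1, h2⟩, h3⟩
      have h4 : a x = 0 := h2
      exact mem_sup_left ⟨mem_comap.2 (by rw [h4]; exact zero_mem _), ⟨h1, h3⟩,
        mem_comap.2 (by rw [h4]; exact zero_mem _)⟩
    · rintro _ ⟨u, hu, rfl⟩
      exact ⟨a u, ⟨u, hu, rfl⟩, (ag u).symm⟩
  have e4 := la_index fI (U.map a)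
  have e5 := la_index gI (U.map a)
  have hr : fI.range = gI.ker := le_antisymm (by rintro _ ⟨x, rfl⟩; exact igf x) hI
  rw [hr, la_split (U.map a) (H := (U.map a).map fI) (by
    rintro _ ⟨_, ⟨u, hu, rfl⟩, rfl⟩; exact ⟨f u, hUf u hu, af u⟩)] at e4
  rw [la_split ((U ⊓ f.ker).map a) (H := (U.map a).map gI) (by
    rintro _ ⟨_, ⟨u, hu, rfl⟩, rfl⟩; exact ⟨g u, ⟨hUg u hu, hfg u⟩, ag u⟩)] at e5
  have e6 := la_split (gI.range ⊔ (U ⊓ f.ker).map a) (H := (U ⊓ f.ker).map a) (K := fI.ker)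
    le_sup_right
  have hle : gI.range ⊔ (U ⊓ f.ker).map a ≤ fI.ker :=
    sup_le (by rintro _ ⟨x, rfl⟩; exact ifg x) (by
      rintro _ ⟨x, ⟨-, hx⟩, rfl⟩
      show fI (a x) = 0
      rw [← af, show f x = 0 from hx, map_zero])
  rw [inf_of_le_left hle, relIndex_sup_right,
    la_split (U.map a) (K := fI.ker) (map_mono inf_le_left), ← e1] at e6
  rw [e5] at h0 e4
  have h1 := left_ne_zero_of_mul h0
  have h2 := right_ne_zero_of_mul (right_ne_zero_of_mul h0)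
  rw [← mul_assoc ((U.map a).relIndex fI.ker), mul_comm _ ((U.map a).relIndex gI.ker)] at e4
  have e7 := mul_left_cancel₀ h1 e4
  refine mul_left_cancel₀ h2 ?_
  rw [e2, e3, ← mul_assoc, ← e6]
  linear_combination (hs (U ⊓ a.ker) g f * (U.map g).relIndex (U ⊓ a.ker ⊓ f.ker)) * e7.symm

theorem la_third (hfg : ∀ x, f (g x) = 0) (hgf : ∀ x, g (f x) = 0)
    (bf : ∀ x, b (f x) = fZ (b x)) (bg : ∀ x, b (g x) = gZ (b x)) (hb : Function.Surjective b)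
    (hUf : ∀ x ∈ U, f x ∈ U) (hUg : ∀ x ∈ U, g x ∈ U) (hK : U ≤ b.ker)
    (h0 : U.relIndex b.ker ≠ 0) (hZ : gZ.ker ≤ fZ.range) (hU : U ⊓ g.ker ≤ U.map f)
    (hL : U.comap g ≤ f.range ⊔ U) :
    (g.range ⊔ U ⊓ f.ker).relIndex f.ker = hc fZ gZ := by
  have gX : g.range ≤ U.comap f := by rintro _ ⟨x, rfl⟩; simp [hfg]
  have s1 : (g.range ⊔ U ⊓ f.ker).relIndex f.ker = (g.range ⊔ U).relIndex (U.comap f) := by
    rw [la_congr (H' := g.range ⊔ U), la_sup (K' := U.comap f)]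
    · exact fun x hx => mem_sup_left (by simp [show f x = 0 from hx])
    · intro x hx
      obtain ⟨u, hu, h1⟩ := hU (show f x ∈ U ⊓ g.ker from ⟨hx, hgf x⟩)
      exact mem_sup.2 ⟨x - u, by simp [h1], u, mem_sup_right hu, sub_add_cancel _ _⟩
    · refine fun x hx => ⟨fun h => (show g.range ⊔ U ⊓ f.ker ≤ g.range ⊔ U from
        sup_le_sup_left inf_le_left _) h, fun h => ?_⟩
      obtain ⟨_, ⟨y, rfl⟩, u, hu, rfl⟩ := mem_sup.1 h
      exact add_mem_sup ⟨y, rfl⟩ ⟨hu, by simpa [hfg] using hx⟩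
  have s3 : (g.range ⊔ U).relIndex ((g.range ⊔ b.ker) ⊓ U.comap f) =
      (b.ker.map g ⊔ U).relIndex (U.comap f ⊓ b.ker) := by
    rw [la_sup (K' := U.comap f ⊓ b.ker), la_congr]
    · refine fun x hx => ⟨fun h => ?_, fun h => (show b.ker.map g ⊔ U ≤ g.range ⊔ U from
        sup_le_sup_right (map_le_range _ _) _) h⟩
      obtain ⟨_, ⟨y, rfl⟩, u, hu, rfl⟩ := mem_sup.1 h
      have h1 : gZ (b y) = 0 := by simpa [bg, show b u = 0 from hK hu] using hx.2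
      obtain ⟨z, hz⟩ := hZ h1
      obtain ⟨w, rfl⟩ := hb z
      exact add_mem_sup ⟨y - f w, by simp [bf, hz], by simp [hgf]⟩ hu
    · rintro x ⟨h1, h2⟩
      obtain ⟨_, ⟨y, rfl⟩, k, hk, rfl⟩ := mem_sup.1 h1
      rw [add_comm]
      exact add_mem_sup ⟨by simpa [hfg] using h2, hk⟩ (mem_sup_left ⟨y, rfl⟩)
    · exact fun x hx => mem_sup_left ⟨mem_sup_right hx.2, hx.1⟩
  have XY : U.comap f ⊔ b.ker ≤ fZ.ker.comap b :=
    sup_le (fun x hx => (bf x).symm.trans (hK hx)) fun x hx => by simp [show b x = 0 from hx]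
  have s4 : hc fZ gZ = (g.range ⊔ b.ker).relIndex (U.comap f) *
      (U.comap f ⊔ b.ker).relIndex (fZ.ker.comap b) := by
    rw [hc, la_map b (V := fZ.ker.comap b) (H' := g.range ⊔ b.ker)
      (map_comap_eq_self_of_surjective hb _),
      la_split (U.comap f ⊔ b.ker) (sup_le_sup_right gX _), inf_of_le_left XY,
      la_sup (K' := U.comap f) (sup_le_sup_left le_sup_right _) (le_sup_left.trans le_sup_left)]
    refine fun x _ => ⟨?_, fun h => ?_⟩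
    · rintro ⟨z, hz⟩
      obtain ⟨w, rfl⟩ := hb z
      exact mem_sup.2 ⟨g w, ⟨w, rfl⟩, x - g w, by simp [bg, hz], add_sub_cancel _ _⟩
    · obtain ⟨_, ⟨y, rfl⟩, k, hk, rfl⟩ := mem_sup.1 h
      exact ⟨b y, by simp [bg, show b k = 0 from hk]⟩
  have s5 : (U.comap f ⊔ b.ker).relIndex (fZ.ker.comap b) =
      (b.ker.map f ⊔ U).relIndex (U.comap g ⊓ b.ker) := by
    rw [← la_map f (H := b.ker.map f ⊔ U) rfl, la_sup]
    · rintro _ ⟨x, hx, rfl⟩
      exact mem_sup_left ⟨by simp [hgf], (bf x).trans hx⟩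
    · rintro x ⟨h1, h2⟩
      obtain ⟨_, ⟨y, rfl⟩, u, hu, rfl⟩ := mem_sup.1 (hL h1)
      refine add_mem_sup ⟨y, ?_, rfl⟩ (mem_sup_right hu)
      simpa [bf, show b u = 0 from hK hu] using h2
    · refine fun x _ => ⟨fun h => ?_, fun h => ?_⟩
      · obtain ⟨_, ⟨k, hk, rfl⟩, u, hu, h1⟩ := mem_sup.1 h
        exact mem_sup.2 ⟨x - k, by simpa [← h1] using hu, k, hk, sub_add_cancel _ _⟩
      · obtain ⟨y, hy, k, hk, rfl⟩ := mem_sup.1 h
        rw [map_add, add_comm]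
        exact add_mem_sup ⟨k, hk, rfl⟩ hy
  rw [s1, s4, s5, la_split (g.range ⊔ b.ker) (sup_le_sup_left hK _), s3, mul_comm,
    la_herb hfg hgf hUf hUg (fun x hx => by simp [bf, show b x = 0 from hx])
      (fun x hx => by simp [bg, show b x = 0 from hx]) hK h0]

theorem rowLA : RowLA := by
  intro p A I Z _ _ _ f g fI gI fZ gZ a b U R hfg hgf ifg igf af ag bf bg hb hUf hUg hK h0 hP hA
    hI hZ hU hR hR' hp h1 hd hdp
  have e := la_cone hfg hgf ifg igf af ag hUf hUg hP hI hU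
  have h2 : hs (U ⊓ a.ker) f g ≠ 0 := fun h => h1 (by rw [← hp, h, mul_zero])
  rw [← hp, ← mul_assoc] at e
  have e1 := mul_right_cancel₀ h2 e
  have h3 := relIndex_le_of_le_left (sup_le_sup_left (map_mono (f := a) hR) gI.range) hd
  have h4 : (gI.range ⊔ (U ⊓ f.ker).map a).relIndex fI.ker ≠ 0 := fun h =>
    hd (relIndex_eq_zero_of_le_left (sup_le_sup_left (map_mono (f := a) hR) gI.range) h)
  rw [e1] at h3 h4
  have h5 : (U.map g).relIndex (U ⊓ f.ker ⊓ gI.range.comap a) = 1 :=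
    le_antisymm (Nat.le_of_mul_le_mul_right (by simpa using h3.trans hdp)
      (Nat.pos_of_ne_zero (right_ne_zero_of_mul h4))) (Nat.pos_of_ne_zero (left_ne_zero_of_mul h4))
  rw [h5, one_mul] at h3
  have h6 := relIndex_eq_one.1 h5
  refine ⟨fun x hx hx' => map_le_range _ _ (h6 ⟨hR hx, hx'⟩), le_antisymm hdp h3, ?_⟩
  rw [le_antisymm (sup_le_sup_left hR g.range) (sup_le le_sup_left hR')]
  refine la_third hfg hgf bf bg hb hUf hUg hK h0 hZ hU fun x hx => ?_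
  obtain ⟨u, hu, h7⟩ := h6 (show g x ∈ U ⊓ f.ker ⊓ gI.range.comap a from
    ⟨⟨hx, hfg x⟩, a x, (ag x).symm⟩)
  exact mem_sup.2 ⟨x - u, hA (by simp [h7]), u, hu, sub_add_cancel _ _⟩

end Pool.Agent.MP_db5b97_nt.H7
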